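import Mathlib

/-! `n (H_n - log n - γ) → 1/2` (part LN_EUL, MP_5c4bc0_an). -/

set_option autoImplicit false

namespace X9.LN

open Filter Topology

theorem e_anti : Antitone fun n : ℕ => ((harmonic n : ℚ) : ℝ) - Real.log ((n : ℝ) + 1 / 2) := by
  apply antitone_nat_of_succ_le
  intro n
  have hx : (0 : ℝ) ≤ 1 / ((n : ℝ) + 1 / 2) := by positivity
  have h := Real.le_log_one_add_of_nonneg hx
  have e1 : 2 * (1 / ((n : ℝ) + 1 / 2)) / (1 / ((n : ℝ) + 1 / 2) + 2) = ((n : ℝ) + 1)⁻¹ := by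
    field_simp
    ring
  have e2 : Real.log (1 + 1 / ((n : ℝ) + 1 / 2)) =
      Real.log (((n : ℝ) + 1) + 1 / 2) - Real.log ((n : ℝ) + 1 / 2) := by
    rw [← Real.log_div (by positivity) (by positivity)]
    congr 1
    field_simp
    ring
  rw [e1, e2] at h
  rw [harmonic_succ]
  push_cast
  linarith

theorem d_mono : Monotone fun n : ℕ =>
    ((harmonic (n + 1) : ℚ) : ℝ) - Real.log ((n : ℝ) + 1) - 1 / (2 * ((n : ℝ) + 1)) := by
  apply monotone_nat_of_le_succ
  intro n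
  have hy : (1 : ℝ) ≤ ((n : ℝ) + 2) / ((n : ℝ) + 1) := by
    rw [le_div_iff₀ (by positivity)]
    linarith
  have h1 : Real.log (((n : ℝ) + 2) / ((n : ℝ) + 1)) ≤
      Real.sinh (Real.log (((n : ℝ) + 2) / ((n : ℝ) + 1))) :=
    Real.self_le_sinh_iff.2 (Real.log_nonneg hy)
  rw [Real.sinh_log (by positivity), Real.log_div (by positivity) (by positivity)] at h1
  have e1 : (((n : ℝ) + 2) / ((n : ℝ) + 1) - (((n : ℝ) + 2) / ((n : ℝ) + 1))⁻¹) / 2 =
      1 / (2 * ((n : ℝ) + 1)) + ((n : ℝ) + 2)⁻¹ - 1 / (2 * ((n : ℝ) + 2)) := by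
    field_simp
    ring
  rw [e1] at h1
  rw [harmonic_succ (n + 1)]
  push_cast
  have e2 : (n : ℝ) + 1 + 1 = (n : ℝ) + 2 := by ring
  rw [e2]
  linarith

theorem e_lim : Tendsto (fun n : ℕ => ((harmonic n : ℚ) : ℝ) - Real.log ((n : ℝ) + 1 / 2)) atTop
    (𝓝 Real.eulerMascheroniConstant) := by
  have h0 : Tendsto (fun n : ℕ => Real.log ((n : ℝ) + 1 / 2) - Real.log n) atTop (𝓝 0) := by
    refine tendsto_of_tendsto_of_tendsto_of_le_of_le' tendsto_const_nhds
      Real.tendsto_log_nat_add_one_sub_log ?_ ?_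
    · filter_upwards [eventually_gt_atTop 0] with n hn
      have hn' : (0 : ℝ) < n := by exact_mod_cast hn
      have := Real.log_le_log hn' (show (n : ℝ) ≤ (n : ℝ) + 1 / 2 by linarith)
      linarith
    · filter_upwards [eventually_gt_atTop 0] with n hn
      have hn' : (0 : ℝ) < n := by exact_mod_cast hn
      have := Real.log_le_log (show (0 : ℝ) < (n : ℝ) + 1 / 2 by linarith)
        (show (n : ℝ) + 1 / 2 ≤ (n : ℝ) + 1 by linarith)
      linarith
  have h1 := Real.tendsto_harmonic_sub_log.sub h0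
  rw [sub_zero] at h1
  refine h1.congr fun n => ?_
  ring

theorem d_lim : Tendsto (fun n : ℕ =>
    ((harmonic (n + 1) : ℚ) : ℝ) - Real.log ((n : ℝ) + 1) - 1 / (2 * ((n : ℝ) + 1))) atTop
    (𝓝 Real.eulerMascheroniConstant) := by
  have h1 := (tendsto_add_atTop_iff_nat 1).2 Real.tendsto_harmonic_sub_log
  have h2 : Tendsto (fun n : ℕ => (1 : ℝ) / ((n : ℝ) + 1) * (1 / 2)) atTop (𝓝 (0 * (1 / 2))) :=
    tendsto_one_div_add_atTop_nhds_zero_nat.mul_const _
  rw [zero_mul] at h2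
  have h3 := h1.sub h2
  rw [sub_zero] at h3
  refine h3.congr fun n => ?_
  push_cast
  have : (1 : ℝ) / ((n : ℝ) + 1) * (1 / 2) = 1 / (2 * ((n : ℝ) + 1)) := by
    field_simp
  rw [this]

theorem t_EUL : Filter.Tendsto
    (fun n : ℕ => (n : ℝ) * (((harmonic n : ℚ) : ℝ) - Real.log n - Real.eulerMascheroniConstant))
    Filter.atTop (nhds (1 / 2)) := by
  have hlo : Tendsto (fun n : ℕ => (1 : ℝ) / 2 - 1 / ((n : ℝ) + 1)) atTop (𝓝 (1 / 2 - 0)) :=
    tendsto_const_nhds.sub tendsto_one_div_add_atTop_nhds_zero_nat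
  rw [sub_zero] at hlo
  refine tendsto_of_tendsto_of_tendsto_of_le_of_le' hlo tendsto_const_nhds ?_ ?_
  · filter_upwards [eventually_gt_atTop 0] with n hn
    have hn' : (1 : ℝ) ≤ n := by exact_mod_cast hn
    have h1 : Real.eulerMascheroniConstant ≤
        ((harmonic n : ℚ) : ℝ) - Real.log ((n : ℝ) + 1 / 2) := e_anti.le_of_tendsto e_lim n
    have hx : (0 : ℝ) ≤ 1 / (2 * (n : ℝ)) := by positivity
    have h2 := Real.le_log_one_add_of_nonneg hx
    have e1 : 2 * (1 / (2 * (n : ℝ))) / (1 / (2 * (n : ℝ)) + 2) = 2 / (4 * (n : ℝ) + 1) := by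
      field_simp
      ring
    have e2 : Real.log (1 + 1 / (2 * (n : ℝ))) = Real.log ((n : ℝ) + 1 / 2) - Real.log n := by
      rw [← Real.log_div (by positivity) (by positivity)]
      congr 1
      field_simp
    rw [e1, e2] at h2
    have h3 : 2 / (4 * (n : ℝ) + 1) ≤
        ((harmonic n : ℚ) : ℝ) - Real.log n - Real.eulerMascheroniConstant := by linarith
    have h4 := mul_le_mul_of_nonneg_left h3 (show (0 : ℝ) ≤ n by linarith)
    refine le_trans ?_ h4
    have e3 : (n : ℝ) * (2 / (4 * (n : ℝ) + 1)) = 1 / 2 - 1 / (2 * (4 * (n : ℝ) + 1)) := by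
      field_simp
      ring
    rw [e3]
    have h5 : 1 / (2 * (4 * (n : ℝ) + 1)) ≤ 1 / ((n : ℝ) + 1) := by
      apply one_div_le_one_div_of_le (by positivity)
      linarith
    linarith
  · filter_upwards [eventually_gt_atTop 0] with n hn
    obtain ⟨m, rfl⟩ : ∃ m, n = m + 1 := ⟨n - 1, by omega⟩
    have h1 : ((harmonic (m + 1) : ℚ) : ℝ) - Real.log ((m : ℝ) + 1) - 1 / (2 * ((m : ℝ) + 1)) ≤
        Real.eulerMascheroniConstant := d_mono.ge_of_tendsto d_lim m
    have hm : (0 : ℝ) < (m : ℝ) + 1 := by positivity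
    push_cast
    have h2 : ((harmonic (m + 1) : ℚ) : ℝ) - Real.log ((m : ℝ) + 1) -
        Real.eulerMascheroniConstant ≤ 1 / (2 * ((m : ℝ) + 1)) := by linarith
    have h3 := mul_le_mul_of_nonneg_left h2 hm.le
    refine h3.trans (le_of_eq ?_)
    field_simp

end X9.LN
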